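import Pool.Agent.H354.NORE.Fin
import Pool.Agent.H354.NORE.E1
import Pool.Agent.H30R3.NOREDual
import Pool.Agent.H9R4.NORE.Base
import Pool.Agent.H397R3.NORE.E4
import Pool.Agent.H920R3.NORE.T0
import Pool.Agent.H975.NORE.T1
import Pool.Agent.H263R3.NORE_L

/-!
# Countable domains over countable fields embed in RD domains
-/

namespace Pool.Agent.Results.MP_b17c42_al.EmbedsInRD

open H354RD

theorem result (k : Type) [Field k] [Countable k] (R : Type) [Ring R] [Algebra k R] [IsDomain R]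
    [Countable R] :
    ∃ (S : Type) (_ : Ring S), IsDomain S ∧ IsRD S ∧ ∃ φ : R →+* S, Function.Injective φ := by
  have hX : H354P.TheoremX k := H354P.taskX k (Pool.Agent.H623R3.NORE.taskE1 k)
    (H354P.taskDual k (Pool.Agent.H623R3.NORE.taskE1 k)) (H354P.taskE4_397 k)
    (Pool.Agent.H975.NORE.taskT1 k (H920NORE.taskT0 k))
  obtain ⟨S, hS, hd, φ, hφ, hc⟩ := H263NORE.taskL k inferInstance hX R inferInstance
  exact ⟨S, hS, hd, H354P.rd_of_cert S hc, φ, hφ⟩

end Pool.Agent.Results.MP_b17c42_al.EmbedsInRD
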