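import Pool.Agent.H354.RD.Main

/-!
# RD domains: the Ore condition is equivalent to embeddability in a division ring

For an RD domain `R` the left Ore condition, the right Ore condition, the Ore condition,
embeddability in a division ring, invertibility of all nonzero elements in some nonzero ring, and
an elementary condition on diagonal matrices over `R` are equivalent.
-/

namespace Pool.Agent.Results.MP_b17c42_al.OreIffEmbeds

open H354RD

theorem result (R : Type) [Ring R] [IsDomain R] (hRD : IsRD R) :
    List.TFAE [LeftOre R, RightOre R, LeftOre R ∧ RightOre R, EmbedsDivision R, Inverts R,
      DiagFull R] :=
  main hRD

end Pool.Agent.Results.MP_b17c42_al.OreIffEmbeds
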