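import Pool.Agent.H354.NORE.Fin
import Pool.Agent.H354.NORE.E1
import Pool.Agent.H30R3.NOREDual
import Pool.Agent.H9R4.NORE.Base
import Pool.Agent.H397R3.NORE.E4
import Pool.Agent.H920R3.NORE.T0
import Pool.Agent.H975.NORE.T1
import Pool.Agent.H263R3.NORE_L

/-!
# An RD domain without invariant basis number
-/

namespace Pool.Agent.Results.MP_b17c42_al.RDWithoutIBN

open H354RD

theorem result : ∃ (R : Type) (_ : Ring R), IsDomain R ∧ IsRD R ∧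
    ∃ (P : Matrix (Fin 3) (Fin 2) R) (Q : Matrix (Fin 2) (Fin 3) R), P * Q = 1 ∧ Q * P = 1 := by
  have hX : H354P.TheoremX ℚ := H354P.taskX ℚ (Pool.Agent.H623R3.NORE.taskE1 ℚ)
    (H354P.taskDual ℚ (Pool.Agent.H623R3.NORE.taskE1 ℚ)) (H354P.taskE4_397 ℚ)
    (Pool.Agent.H975.NORE.taskT1 ℚ (H920NORE.taskT0 ℚ))
  obtain ⟨R, _, _, _, _, P, Q, h1, h2⟩ := H354P.countable_base
    (H354P.taskBase ℚ (H354P.taskE4_397 ℚ) (Pool.Agent.H975.NORE.taskT1 ℚ (H920NORE.taskT0 ℚ)))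
  obtain ⟨S, hS, hd, φ, hφ, hc⟩ := H263NORE.taskL ℚ inferInstance hX R inferInstance
  refine ⟨S, hS, hd, H354P.rd_of_cert S hc, P.map φ, Q.map φ, ?_, ?_⟩
  · rw [← Matrix.map_mul, h1, Matrix.map_one _ (map_zero _) (map_one _)]
  · rw [← Matrix.map_mul, h2, Matrix.map_one _ (map_zero _) (map_one _)]

end Pool.Agent.Results.MP_b17c42_al.RDWithoutIBN
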